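import Pool.Agent.TH686.NF.Ram

/-!
# Fields which are NIP, or `NIP_n`, or `NTP2` have few places of dimension greater than one

Let `K` be a field which is NIP, or `NIP_n` for some `n`, or `NTP2`. For every `D` there is a number
`N`, depending only on `D` and the theory of `K`, such that among any `N` pairwise incomparable
places of `K` (or of a field elementarily equivalent to `K`) with a real valuation, at least one is
tame up to `D`: for all `d ≤ D` the value group is `d`-divisible or the residue field has no
separable extension of degree `d`, and for all prime numbers `d ≤ D` different from the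
characteristic of the valued field the value group is cyclic modulo `d`. There is also a number `N`
such that there are never `N` pairwise incomparable real places.

The first part is proved by showing that otherwise the norm from an unramified or from a ramified
extension of the completion is not surjective, and by the theorem `main_general` of the starting
library `Pool.Agent.W882.Nip3` (starting result `FewBadPlaces`). `NIPField`, `NIPnField`,
`NTP2Field` are defined in `Pool.Agent.W882.Nip3.Defs`.
-/

set_option autoImplicit false

namespace Pool.Agent.Results.MP_3554b5_lc.UnramifiedNorms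

open Pool.Agent.W882.Nip3 Pool.Agent.TH686.NF NNReal

/-- A place of `K` with a real valuation: a valuation ring `O` of `K` (possibly `K` itself), its
residue field `κ` and a valuation `v` of `κ` with values in the nonnegative real numbers. (The
valuations of rank one of `K` are the case `O = K`.) -/
structure ValuedPlace (K : Type) [Field K] where
  O : ValuationSubring K
  κ : Type
  field : Field κ
  π : O →+* κ
  surjective : Function.Surjective π
  v : Valuation κ ℝ≥0

attribute [instance] ValuedPlace.field

/-- `x` lies in `O` and has a value less than one. -/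
def ValuedPlace.Small {K : Type} [Field K] (P : ValuedPlace K) (x : K) : Prop :=
  ∃ h : x ∈ P.O, P.v (P.π ⟨x, h⟩) < 1

/-- Two places are incomparable: some nonzero `x` is small at one of them and its inverse is small
at the other one. -/
def ValuedPlace.Incomparable {K : Type} [Field K] (P Q : ValuedPlace K) : Prop :=
  ∃ x : K, x ≠ 0 ∧ P.Small x ∧ Q.Small x⁻¹

/-- The value group of `v` is `d`-divisible. -/
def ValuedPlace.Divisible {K : Type} [Field K] (P : ValuedPlace K) (d : ℕ) : Prop :=
  ∀ a : P.κ, ∃ c : P.κ, P.v a = P.v c ^ d

/-- The residue field of `v` has a separable extension of degree `d`. -/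
def ValuedPlace.HasExtension {K : Type} [Field K] (P : ValuedPlace K) (d : ℕ) : Prop :=
  ∃ (L : Type) (_ : Field L) (_ : Algebra (IsLocalRing.ResidueField P.v.valuationSubring) L),
    Algebra.IsSeparable (IsLocalRing.ResidueField P.v.valuationSubring) L ∧
      Module.finrank (IsLocalRing.ResidueField P.v.valuationSubring) L = d

/-- The value group of `v` is cyclic modulo `d`-th powers: it is generated by the `d`-th powers and
one element. -/
def ValuedPlace.CyclicMod {K : Type} [Field K] (P : ValuedPlace K) (d : ℕ) : Prop :=
  ∃ a : P.κ, a ≠ 0 ∧ ∀ b : P.κ, ∃ (c : P.κ) (i : ℕ), P.v b = P.v c ^ d * P.v a ^ i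

/-- The place is tame up to `D`: for all `d ≤ D` the value group is `d`-divisible or the residue
field has no separable extension of degree `d`, and for all prime numbers `d ≤ D` different from the
characteristic of `κ` the value group is cyclic modulo `d`-th powers. -/
def ValuedPlace.TameUpTo {K : Type} [Field K] (P : ValuedPlace K) (D : ℕ) : Prop :=
  ∀ d, 1 ≤ d → d ≤ D → (P.Divisible d ∨ ¬ P.HasExtension d) ∧
    (d.Prime → (d : P.κ) ≠ 0 → P.CyclicMod d)

/-- A valuation of `K` with values in the nonnegative real numbers as a valued place, `O = K`. -/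
def ofValuation {K : Type} [Field K] (v : Valuation K ℝ≥0) : ValuedPlace K where
  O := ⊤
  κ := K
  field := inferInstance
  π := (⊤ : ValuationSubring K).subtype
  surjective x := ⟨⟨x, trivial⟩, rfl⟩
  v := v

/-- A real place of `K`: a valuation ring `O` of `K` (possibly `K` itself), its residue field `κ`
and an embedding of `κ` into the field of real numbers. -/
structure RealPlace (K : Type) [Field K] where
  O : ValuationSubring K
  κ : Type
  field : Field κ
  π : O →+* κ
  surjective : Function.Surjective π
  σ : κ →+* ℝ

attribute [instance] RealPlace.field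

/-- `x` lies in `O` and has an absolute value less than one. -/
def RealPlace.Small {K : Type} [Field K] (P : RealPlace K) (x : K) : Prop :=
  ∃ h : x ∈ P.O, |P.σ (P.π ⟨x, h⟩)| < 1

/-- Two real places are incomparable: some nonzero `x` is small at one of them and its inverse is
small at the other one. -/
def RealPlace.Incomparable {K : Type} [Field K] (P Q : RealPlace K) : Prop :=
  ∃ x : K, x ≠ 0 ∧ P.Small x ∧ Q.Small x⁻¹

theorem isUnit_of_ne {K : Type} [Field K] (O : ValuationSubring K) {κ : Type} [Field κ]
    (π : O →+* κ) (hπ : Function.Surjective π) (x : O) (hx : π x ≠ 0) : IsUnit x := by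
  by_contra h
  have h1 : x ∈ IsLocalRing.maximalIdeal O := h
  have h2 : RingHom.ker π = IsLocalRing.maximalIdeal O :=
    IsLocalRing.eq_maximalIdeal (RingHom.ker_isMaximal_of_surjective π hπ)
  rw [← h2] at h1
  exact hx h1

/-- the place with values in the completion -/
noncomputable def toPlace {K : Type} [Field K] (P : ValuedPlace K) (h : ∃ a, 1 < P.v a) :
    Place K where
  O := P.O
  F := Cp P.v
  normedField := ntr P.v h
  complete := inferInstanceAs (CompleteSpace (Cp P.v))
  res := (emb P.v).comp P.π
  isUnit_of_res_ne_zero x hx := by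
    refine isUnit_of_ne P.O P.π P.surjective x (fun h0 => hx ?_)
    rw [RingHom.comp_apply, h0, map_zero]
  denseRange := by
    have h2 : Set.range ((emb P.v).comp P.π) = Set.range (emb P.v) := by
      rw [RingHom.coe_comp, P.surjective.range_comp]
    unfold DenseRange
    rw [h2]
    exact dense_emb P.v

/-- the real place as a place with values in a complete field -/
noncomputable def realToPlace {K : Type} [Field K] (P : RealPlace K) : Place K where
  O := P.O
  F := ℝ
  normedField := inferInstance
  complete := inferInstance
  res := P.σ.comp P.π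
  isUnit_of_res_ne_zero x hx := by
    refine isUnit_of_ne P.O P.π P.surjective x (fun h0 => hx ?_)
    rw [RingHom.comp_apply, h0, map_zero]
  denseRange := by
    have h2 : Set.range (P.σ.comp P.π) = Set.range P.σ := by
      rw [RingHom.coe_comp, P.surjective.range_comp]
    unfold DenseRange
    rw [h2]
    refine Dense.mono ?_ (Rat.denseRange_cast (𝕜 := ℝ))
    rintro _ ⟨q, rfl⟩
    have h3 : CharZero P.κ := by
      refine ⟨fun a b hab => ?_⟩
      have h4 := congrArg P.σ hab
      rw [map_natCast, map_natCast] at h4
      exact_mod_cast h4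
    exact ⟨(q : P.κ), map_ratCast _ _⟩

theorem real_not_dimLe : ¬ DimLeOneUpTo ℝ 2 := by
  intro H
  have h1 := H ℝ inferInstance inferInstance (by rw [Module.finrank_self]; omega) ℂ inferInstance
    inferInstance (by rw [Complex.finrank_real_complex])
  obtain ⟨z, hz⟩ := h1 (-1)
  rw [Algebra.norm_complex_apply] at hz
  have h2 := Complex.normSq_nonneg z
  linarith

theorem exists_gt_of_not_tame {K : Type} [Field K] (P : ValuedPlace K) {D : ℕ}
    (h : ¬ P.TameUpTo D) : ∃ a, 1 < P.v a := by
  by_contra hcon
  push Not at hcon
  have h1 : ∀ a : P.κ, a ≠ 0 → P.v a = 1 := by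
    intro a ha
    refine le_antisymm (hcon a) ?_
    have h2 := hcon a⁻¹
    rw [map_inv₀] at h2
    exact (inv_le_one₀ (pos_iff_ne_zero.2 ((Valuation.ne_zero_iff _).2 ha))).1 h2
  have h2 : ∀ d, 1 ≤ d → ∀ a : P.κ, ∃ c : P.κ, P.v a = P.v c ^ d := by
    intro d hd a
    by_cases ha : a = 0
    · refine ⟨0, ?_⟩
      rw [ha, map_zero, zero_pow (by omega)]
    · refine ⟨1, ?_⟩
      rw [h1 a ha, map_one, one_pow]
  apply h
  intro d hd _
  refine ⟨Or.inl (h2 d hd), fun _ _ => ⟨1, one_ne_zero, fun b => ?_⟩⟩
  obtain ⟨c, hc⟩ := h2 d hd b
  exact ⟨c, 0, by rw [pow_zero, mul_one]; exact hc⟩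

theorem not_dimLe_of_not_tame {K : Type} [Field K] (P : ValuedPlace K) {D : ℕ}
    (h : ¬ P.TameUpTo D) : ¬ DimLeOneUpTo (Cp P.v) D := by
  have hgt := exists_gt_of_not_tame P h
  unfold ValuedPlace.TameUpTo at h
  push Not at h
  obtain ⟨d, hd1, hdD, hd⟩ := h
  by_cases h1 : P.Divisible d ∨ ¬ P.HasExtension d
  · obtain ⟨h2, h3, h4⟩ := hd h1
    exact not_dimLe_compl_ram P.v hgt h2 h3 h4 hdD
  · push Not at h1
    obtain ⟨L, fL, aL, sL, hL⟩ := h1.2
    obtain ⟨a, ha⟩ : ∃ a, ∀ c, P.v a ≠ P.v c ^ d := by
      have h2 := h1.1
      unfold ValuedPlace.Divisible at h2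
      push Not at h2
      exact h2
    exact not_dimLe_compl P.v hd1 ha L hL hdD

/-- Let `K` be a field which is NIP (the hypothesis of `S14569`), or `NIP_n` for some `n`, or
`NTP2`.

(1) For every `D` there is `N`, depending only on `D` and the theory of `K`, such that among any `N`
pairwise incomparable valued places of `K` (or of a field elementarily equivalent to `K`), at least
one is tame up to `D`; in particular among any `N` pairwise incomparable valuations with real
values.

(2) There is `N` such that neither `K` nor a field elementarily equivalent to `K` has `N` pairwise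
incomparable real places. -/
theorem result (K : Type) [Field K] [FirstOrder.Ring.CompatibleRing K]
    (hK : NIPField K ∨ (∃ n, NIPnField n K) ∨ NTP2Field K) :
    (∀ D : ℕ, ∃ N : ℕ, ∀ (K' : Type) [Field K'] [FirstOrder.Ring.CompatibleRing K'],
      FirstOrder.Language.ring.ElementarilyEquivalent K K' →
      (∀ P : Fin N → ValuedPlace K', (Pairwise fun i j => (P i).Incomparable (P j)) →
        ∃ i, (P i).TameUpTo D) ∧
      (∀ v : Fin N → Valuation K' ℝ≥0, (Pairwise fun i j => ∃ x, v i x < 1 ∧ 1 < v j x) →
        ∃ i, (ofValuation (v i)).TameUpTo D)) ∧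
    ∃ N : ℕ, ∀ (K' : Type) [Field K'] [FirstOrder.Ring.CompatibleRing K'],
      FirstOrder.Language.ring.ElementarilyEquivalent K K' →
      ∀ P : Fin N → RealPlace K', ¬ Pairwise fun i j => (P i).Incomparable (P j) := by
  refine ⟨fun D => ?_, ?_⟩
  · obtain ⟨N, hN⟩ := main_general (fun e d => boundedG_of_tame hK e d) D
    have key : ∀ (K' : Type) [Field K'] [FirstOrder.Ring.CompatibleRing K'],
        FirstOrder.Language.ring.ElementarilyEquivalent K K' →
        ∀ P : Fin N → ValuedPlace K', (Pairwise fun i j => (P i).Incomparable (P j)) →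
          ∃ i, (P i).TameUpTo D := by
      intro K' _ _ hKK' P hP
      by_contra hcon
      push Not at hcon
      have hgt : ∀ i, ∃ a, 1 < (P i).v a := fun i => exists_gt_of_not_tame (P i) (hcon i)
      obtain ⟨i, hi⟩ := hN K' hKK' (fun i => toPlace (P i) (hgt i)) (by
        intro i j hij
        obtain ⟨x, hx0, ⟨h1, h2⟩, h3, h4⟩ := hP hij
        refine ⟨x, hx0, ⟨h1, ?_⟩, ⟨h3, ?_⟩⟩
        · change ‖emb (P i).v ((P i).π ⟨x, h1⟩)‖ < 1
          rw [norm_emb]
          exact_mod_cast h2
        · change ‖emb (P j).v ((P j).π ⟨x⁻¹, h3⟩)‖ < 1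
          rw [norm_emb]
          exact_mod_cast h4)
      exact not_dimLe_of_not_tame (P i) (hcon i) hi
    refine ⟨N, fun K' _ _ hKK' => ⟨key K' hKK', ?_⟩⟩
    intro v hv
    refine key K' hKK' (fun i => ofValuation (v i)) ?_
    intro i j hij
    obtain ⟨x, h1, h2⟩ := hv hij
    have hx0 : x ≠ 0 := by
      rintro rfl
      rw [map_zero] at h2
      exact not_lt_zero h2
    refine ⟨x, hx0, ⟨trivial, h1⟩, ⟨trivial, ?_⟩⟩
    change v j x⁻¹ < 1
    rw [map_inv₀]
    exact inv_lt_one_of_one_lt₀ h2
  · obtain ⟨N, hN⟩ := main_general (fun e d => boundedG_of_tame hK e d) 2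
    refine ⟨N, fun K' _ _ hKK' P hP => ?_⟩
    obtain ⟨i, hi⟩ := hN K' hKK' (fun i => realToPlace (P i)) (by
      intro i j hij
      obtain ⟨x, hx0, ⟨h1, h2⟩, h3, h4⟩ := hP hij
      exact ⟨x, hx0, ⟨h1, h2⟩, ⟨h3, h4⟩⟩)
    exact real_not_dimLe hi

end Pool.Agent.Results.MP_3554b5_lc.UnramifiedNorms
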